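import Pool.Agent.Helper95.Lin.GoalsH

/-!
# Packet MOLW: mollifications of weakly pluriharmonic functions
-/

open Complex Metric Set Filter Topology MeasureTheory
open scoped ContDiff ComplexConjugate ComplexOrder Convolution

namespace Pool.Agent.Helper67.Lin

open Pool.Agent.Helper95.Lin

variable {n : ℕ}

/-! ## The mollifier -/

theorem contDiff_sumSq : ContDiff ℝ ∞ (fun y : Cn n => ∑ j, ‖y j‖ ^ 2) := by
  refine ContDiff.sum fun j _ => ?_
  exact (contDiff_norm_sq ℝ (E := ℂ)).comp (contDiff_apply ℝ ℂ j)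

theorem bump_contDiff (ε : ℝ) : ContDiff ℝ ∞ (bump n ε) := by
  unfold bump
  exact expNegInvGlue.contDiff.comp (contDiff_const.sub (contDiff_sumSq.div_const _))

theorem bump_nonneg (ε : ℝ) (y : Cn n) : 0 ≤ bump n ε y := expNegInvGlue.nonneg _

theorem norm_lt_of_bump {ε : ℝ} (hε : 0 < ε) {y : Cn n} (h : bump n ε y ≠ 0) : ‖y‖ < ε := by
  rw [pi_norm_lt_iff hε]
  intro i
  by_contra hi
  apply h
  unfold bump
  apply expNegInvGlue.zero_of_nonpos
  have h1 : ε ^ 2 ≤ ‖y i‖ ^ 2 := pow_le_pow_left₀ hε.le (not_lt.1 hi) 2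
  have h2 : ‖y i‖ ^ 2 ≤ ∑ j, ‖y j‖ ^ 2 :=
    Finset.single_le_sum (f := fun j => ‖y j‖ ^ 2) (fun j _ => sq_nonneg _) (Finset.mem_univ i)
  have h3 : 1 ≤ (∑ j, ‖y j‖ ^ 2) / ε ^ 2 := by
    rw [le_div_iff₀ (by positivity), one_mul]
    exact h1.trans h2
  linarith

theorem bump_cs {ε : ℝ} (hε : 0 < ε) : HasCompactSupport (bump n ε) := by
  refine HasCompactSupport.intro (isCompact_closedBall (0 : Cn n) ε) fun y hy => ?_
  by_contra h
  apply hy
  rw [mem_closedBall_zero_iff]
  exact (norm_lt_of_bump hε h).le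

theorem bump_zero (ε : ℝ) : bump n ε 0 ≠ 0 := by
  unfold bump
  apply ne_of_gt
  apply expNegInvGlue.pos_of_pos
  simp

theorem bump_int {ε : ℝ} (hε : 0 < ε) : 0 < ∫ x, bump n ε x :=
  (bump_contDiff ε).continuous.integral_pos_of_hasCompactSupport_nonneg_nonzero (bump_cs hε)
    (bump_nonneg ε) (bump_zero ε)

theorem mol_contDiff (ε : ℝ) : ContDiff ℝ ∞ (mol n ε) := by
  unfold mol
  exact contDiff_const.mul (bump_contDiff ε)

theorem norm_lt_of_mol {ε : ℝ} (hε : 0 < ε) {y : Cn n} (h : mol n ε y ≠ 0) : ‖y‖ < ε :=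
  norm_lt_of_bump hε (right_ne_zero_of_mul h)

theorem mol_cs {ε : ℝ} (hε : 0 < ε) : HasCompactSupport (mol n ε) :=
  (bump_cs hε).mul_left

theorem mol_cont (ε : ℝ) : Continuous (mol n ε) := (mol_contDiff ε).continuous

theorem mol_int {ε : ℝ} (hε : 0 < ε) : ∫ x, mol n ε x = 1 := by
  unfold mol
  rw [integral_const_mul]
  exact inv_mul_cancel₀ (bump_int hε).ne'

theorem bump_rot (ε : ℝ) {c : ℂ} (hc : ‖c‖ = 1) (y : Cn n) : bump n ε (c • y) = bump n ε y := by
  unfold bump
  congr 3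
  refine Finset.sum_congr rfl fun j _ => ?_
  rw [Pi.smul_apply, smul_eq_mul, norm_mul, hc, one_mul]

theorem mol_rot (ε : ℝ) {c : ℂ} (hc : ‖c‖ = 1) (y : Cn n) : mol n ε (c • y) = mol n ε y := by
  unfold mol
  rw [bump_rot ε hc]

theorem mol_neg (ε : ℝ) (y : Cn n) : mol n ε (-y) = mol n ε y := by
  have := mol_rot ε (c := -1) (by simp) y
  rwa [neg_one_smul] at this

/-! ## Convolutions -/

theorem moll_eq (v : Cn n → ℝ) (ε : ℝ) :
    moll v ε = (v ⋆[ContinuousLinearMap.mul ℝ ℝ, volume] mol n ε) := by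
  funext x
  rw [convolution_mul_swap]
  rfl

theorem deriv_cs {g : Cn n → ℝ} (hg : HasCompactSupport g) (v : Cn n) :
    HasCompactSupport (fun y => fderiv ℝ g y v) := by
  refine (hg.fderiv ℝ).mono ?_
  intro y hy
  rw [Function.mem_support] at hy ⊢
  intro h
  apply hy
  rw [h]; rfl

theorem deriv_contDiff {g : Cn n → ℝ} (hg : ContDiff ℝ ∞ g) (v : Cn n) :
    ContDiff ℝ ∞ (fun y => fderiv ℝ g y v) :=
  (hg.fderiv_right (m := ∞) (by simp)).clm_apply contDiff_const

theorem fderiv_conv {f g : Cn n → ℝ} (hf : LocallyIntegrable f) (hg : ContDiff ℝ ∞ g)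
    (hc : HasCompactSupport g) (v : Cn n) :
    (fun x => fderiv ℝ (f ⋆[ContinuousLinearMap.mul ℝ ℝ, volume] g) x v) =
      (f ⋆[ContinuousLinearMap.mul ℝ ℝ, volume] fun y => fderiv ℝ g y v) := by
  funext x
  have h1 := hc.hasFDerivAt_convolution_right (ContinuousLinearMap.mul ℝ ℝ) (μ := volume) hf
    (hg.of_le (by simp)) x
  rw [h1.fderiv]
  exact convolution_precompR_apply (ContinuousLinearMap.mul ℝ ℝ) hf (hc.fderiv ℝ)
    (hg.continuous_fderiv (by simp)) x v

theorem hess_conv {f g : Cn n → ℝ} (hf : LocallyIntegrable f) (hg : ContDiff ℝ ∞ g)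
    (hc : HasCompactSupport g) (u v x : Cn n) :
    hess (f ⋆[ContinuousLinearMap.mul ℝ ℝ, volume] g) x u v =
      (f ⋆[ContinuousLinearMap.mul ℝ ℝ, volume] fun y => hess g y u v) x := by
  unfold hess
  rw [fderiv_conv hf hg hc v]
  exact congrFun (fderiv_conv hf (deriv_contDiff hg v) (deriv_cs hc v) u) x

theorem hess_contDiff {g : Cn n → ℝ} (hg : ContDiff ℝ ∞ g) (u v : Cn n) :
    ContDiff ℝ ∞ (fun y => hess g y u v) := deriv_contDiff (deriv_contDiff hg v) u

theorem hess_cs {g : Cn n → ℝ} (hg : HasCompactSupport g) (u v : Cn n) :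
    HasCompactSupport (fun y => hess g y u v) := deriv_cs (deriv_cs hg v) u

theorem lev_conv {f g : Cn n → ℝ} (hf : LocallyIntegrable f) (hg : ContDiff ℝ ∞ g)
    (hc : HasCompactSupport g) (x e : Cn n) :
    lev (f ⋆[ContinuousLinearMap.mul ℝ ℝ, volume] g) x e = ∫ t, f t * lev g (x - t) e := by
  unfold lev
  rw [hess_conv hf hg hc, hess_conv hf hg hc, convolution_mul, convolution_mul, ← integral_add]
  · refine integral_congr_ae (Eventually.of_forall fun t => ?_)
    simp only []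
    ring
  · exact (hess_cs hc e e).convolutionExists_right (ContinuousLinearMap.mul ℝ ℝ) hf
      (hess_contDiff hg e e).continuous x
  · exact (hess_cs hc _ _).convolutionExists_right (ContinuousLinearMap.mul ℝ ℝ) hf
      (hess_contDiff hg (I • e) (I • e)).continuous x

theorem fderiv_reflect {g : Cn n → ℝ} (hg : ContDiff ℝ ∞ g) (x y v : Cn n) :
    fderiv ℝ (fun y => g (x - y)) y v = -(fderiv ℝ g (x - y) v) := by
  have h1 : HasFDerivAt (fun y : Cn n => x - y) (-(ContinuousLinearMap.id ℝ (Cn n))) y :=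
    (hasFDerivAt_id y).const_sub x
  have h2 : HasFDerivAt g (fderiv ℝ g (x - y)) (x - y) :=
    (hg.differentiable (by simp) _).hasFDerivAt
  have h3 := h2.comp y h1
  have h4 : fderiv ℝ (fun y => g (x - y)) y =
      (fderiv ℝ g (x - y)).comp (-(ContinuousLinearMap.id ℝ (Cn n))) := h3.fderiv
  rw [h4]
  simp

theorem hess_reflect {g : Cn n → ℝ} (hg : ContDiff ℝ ∞ g) (x y u v : Cn n) :
    hess (fun y => g (x - y)) y u v = hess g (x - y) u v := by
  unfold hess
  have h1 : (fun y => fderiv ℝ (fun y => g (x - y)) y v) =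
      fun y => -((fun z => fderiv ℝ g z v) (x - y)) := by
    funext y
    exact fderiv_reflect hg x y v
  have hs := deriv_contDiff hg v
  have h2 : fderiv ℝ (fun y => -((fun z => fderiv ℝ g z v) (x - y))) y =
      -fderiv ℝ (fun y => (fun z => fderiv ℝ g z v) (x - y)) y := fderiv_fun_neg
  rw [h1, h2, neg_apply, fderiv_reflect hs, neg_neg]

theorem lev_reflect {g : Cn n → ℝ} (hg : ContDiff ℝ ∞ g) (x y e : Cn n) :
    lev (fun y => g (x - y)) y e = lev g (x - y) e := by
  unfold lev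
  rw [hess_reflect hg, hess_reflect hg]

theorem hess_congr {φ ψ : Cn n → ℝ} {x : Cn n} (h : φ =ᶠ[𝓝 x] ψ) (u v : Cn n) :
    hess φ x u v = hess ψ x u v := by
  unfold hess
  have h1 : (fun y => fderiv ℝ φ y v) =ᶠ[𝓝 x] fun y => fderiv ℝ ψ y v := by
    filter_upwards [h.fderiv (𝕜 := ℝ)] with y hy
    rw [hy]
  rw [h1.fderiv_eq]

theorem lev_congr {φ ψ : Cn n → ℝ} {x : Cn n} (h : φ =ᶠ[𝓝 x] ψ) (e : Cn n) :
    lev φ x e = lev ψ x e := by
  unfold lev
  rw [hess_congr h, hess_congr h]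

theorem lev_zero (x e : Cn n) : lev (fun _ => (0 : ℝ)) x e = 0 := by
  unfold lev hess
  simp

/-- locality of the mollification -/
theorem moll_local {ε r : ℝ} (hε : 0 < ε) (u : Cn n → ℝ) {x x₀ : Cn n}
    (h : ‖x - x₀‖ + ε ≤ r) :
    moll u ε x = (((closedBall x₀ r).indicator u)
      ⋆[ContinuousLinearMap.mul ℝ ℝ, volume] mol n ε) x := by
  rw [convolution_mul_swap]
  unfold moll
  refine integral_congr_ae (Eventually.of_forall fun y => ?_)
  simp only []
  by_cases hy : mol n ε y = 0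
  · rw [hy, mul_zero, mul_zero]
  · rw [indicator_of_mem]
    rw [mem_closedBall_iff_norm]
    have h1 := norm_lt_of_mol hε hy
    have h2 : x - y - x₀ = (x - x₀) - y := by abel
    rw [h2]
    have h3 := norm_sub_le (x - x₀) y
    linarith

section main

variable {M : Set (Cn n)} {u : Cn n → ℝ}

/-- locally the mollification is a convolution with a smooth function -/
theorem moll_nhds {ε ε₀ : ℝ} (hε : 0 < ε) (h2 : 2 * ε ≤ ε₀) (u : Cn n → ℝ) (x₀ : Cn n) :
    moll u ε =ᶠ[𝓝 x₀] (((closedBall x₀ ε₀).indicator u)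
      ⋆[ContinuousLinearMap.mul ℝ ℝ, volume] mol n ε) := by
  filter_upwards [ball_mem_nhds x₀ (show 0 < ε₀ / 2 by linarith)] with x hx
  refine moll_local hε u ?_
  rw [mem_ball_iff_norm] at hx
  linarith

theorem ind_int (hM : ∀ K ⊆ M, IsCompact K → IntegrableOn u K) {x₀ : Cn n} {r : ℝ}
    (h : closedBall x₀ r ⊆ M) : Integrable ((closedBall x₀ r).indicator u) := by
  rw [integrable_indicator_iff measurableSet_closedBall]
  exact hM _ h (isCompact_closedBall _ _)

theorem moll_contDiffAt (hM : ∀ K ⊆ M, IsCompact K → IntegrableOn u K) {x₀ : Cn n} {ε ε₀ : ℝ}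
    (h : closedBall x₀ ε₀ ⊆ M) (hε : 0 < ε) :
    ContDiff ℝ ∞ (((closedBall x₀ ε₀).indicator u)
      ⋆[ContinuousLinearMap.mul ℝ ℝ, volume] mol n ε) :=
  (mol_cs hε).contDiff_convolution_right _ (ind_int hM h).locallyIntegrable (mol_contDiff ε)

/-- the Levi form of the mollification vanishes -/
theorem lev_moll (hM : ∀ K ⊆ M, IsCompact K → IntegrableOn u K)
    (hw : ∀ ψ, TestF M ψ → ∀ e, ∫ x in M, u x * lev ψ x e = 0) (hMo : IsOpen M)
    {x₀ : Cn n} {ε ε₀ : ℝ}
    (h : closedBall x₀ ε₀ ⊆ M) (hε : 0 < ε) (h2 : 2 * ε ≤ ε₀) (e : Cn n) :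
    lev (moll u ε) x₀ e = 0 := by
  rw [lev_congr (moll_nhds hε h2 u x₀), lev_conv (ind_int hM h).locallyIntegrable (mol_contDiff ε)
    (mol_cs hε)]
  have hsup : ∀ t : Cn n, ε < ‖t‖ → lev (mol n ε) t e = 0 := by
    intro t ht
    have h1 : mol n ε =ᶠ[𝓝 t] fun _ => 0 := by
      have h3 : {y : Cn n | ε < ‖y‖} ∈ 𝓝 t :=
        (isOpen_lt continuous_const continuous_norm).mem_nhds ht
      filter_upwards [h3] with y hy
      by_contra h4
      exact absurd (norm_lt_of_mol hε h4) (not_lt.2 (le_of_lt hy))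
    rw [lev_congr h1, lev_zero]
  have hT : TestF M (fun y => mol n ε (x₀ - y)) := by
    have hsm : ContDiff ℝ ∞ (fun y => mol n ε (x₀ - y)) :=
      (mol_contDiff ε).comp (contDiff_const.sub contDiff_id)
    have hz : ∀ y, y ∉ closedBall x₀ ε → mol n ε (x₀ - y) = 0 := by
      intro y hy
      by_contra h4
      apply hy
      rw [mem_closedBall_iff_norm, norm_sub_rev]
      exact (norm_lt_of_mol hε h4).le
    refine ⟨hsm, HasCompactSupport.intro (isCompact_closedBall x₀ ε) hz, ?_⟩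
    have h5 : tsupport (fun y => mol n ε (x₀ - y)) ⊆ closedBall x₀ ε := by
      refine closure_minimal ?_ isClosed_closedBall
      intro y hy
      by_contra h6
      exact hy (hz y h6)
    exact h5.trans ((closedBall_subset_closedBall (by linarith)).trans h)
  rw [← hw _ hT e, ← integral_indicator hMo.measurableSet]
  refine integral_congr_ae (Eventually.of_forall fun t => ?_)
  simp only []
  by_cases ht : t ∈ closedBall x₀ ε₀
  · rw [indicator_of_mem ht, indicator_of_mem (h ht), lev_reflect (mol_contDiff ε)]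
  · rw [indicator_of_notMem ht, zero_mul]
    by_cases htM : t ∈ M
    · rw [indicator_of_mem htM, lev_reflect (mol_contDiff ε), hsup, mul_zero]
      rw [mem_closedBall_iff_norm, norm_sub_rev] at ht
      linarith
    · rw [indicator_of_notMem htM]

/-- Laplacian of the restriction of a smooth function to a complex line -/
theorem laplacian_line {W : Cn n → ℝ} (hW : ContDiff ℝ ∞ W) (x e : Cn n) (ζ : ℂ) :
    Laplacian.laplacian (fun ζ : ℂ => W (x + ζ • e)) ζ = lev W (x + ζ • e) e := by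
  have hA : ∀ ζ : ℂ, HasFDerivAt (fun ζ : ℂ => x + ζ • e)
      ((ContinuousLinearMap.id ℝ ℂ).smulRight e) ζ := fun ζ =>
    ((ContinuousLinearMap.id ℝ ℂ).smulRight e).hasFDerivAt.const_add x
  have hd : ∀ {g : Cn n → ℝ}, ContDiff ℝ ∞ g → ∀ ζ : ℂ, ∀ a : ℂ,
      fderiv ℝ (fun ζ : ℂ => g (x + ζ • e)) ζ a = fderiv ℝ g (x + ζ • e) (a • e) := by
    intro g hg ζ a
    have h1 : HasFDerivAt g (fderiv ℝ g (x + ζ • e)) (x + ζ • e) :=
      (hg.differentiable (by simp) _).hasFDerivAt
    have h2 := (h1.comp ζ (hA ζ)).fderiv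
    have h3 : fderiv ℝ (fun ζ : ℂ => g (x + ζ • e)) ζ =
        (fderiv ℝ g (x + ζ • e)).comp ((ContinuousLinearMap.id ℝ ℂ).smulRight e) := h2
    rw [h3]
    simp
  have hsm : ContDiff ℝ ∞ (fun ζ : ℂ => W (x + ζ • e)) :=
    hW.comp (contDiff_const.add (contDiff_id.smul contDiff_const))
  have hdd : ∀ a b : ℂ, fderiv ℝ (fderiv ℝ (fun ζ : ℂ => W (x + ζ • e))) ζ a b =
      hess W (x + ζ • e) (a • e) (b • e) := by
    intro a b
    have h1 : DifferentiableAt ℝ (fderiv ℝ (fun ζ : ℂ => W (x + ζ • e))) ζ :=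
      (hsm.fderiv_right (m := ∞) (by simp)).differentiable (by simp) ζ
    have h2 : fderiv ℝ (fun ζ' : ℂ => fderiv ℝ (fun ζ : ℂ => W (x + ζ • e)) ζ' b) ζ a =
        fderiv ℝ (fderiv ℝ (fun ζ : ℂ => W (x + ζ • e))) ζ a b := by
      rw [fderiv_clm_apply h1 (differentiableAt_const b)]
      simp
    rw [← h2]
    have h3 : (fun ζ' : ℂ => fderiv ℝ (fun ζ : ℂ => W (x + ζ • e)) ζ' b) =
        fun ζ' : ℂ => (fun y => fderiv ℝ W y (b • e)) (x + ζ' • e) := by
      funext ζ'
      exact hd hW ζ' b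
    rw [h3, hd (deriv_contDiff hW (b • e)) ζ a]
    rfl
  rw [InnerProductSpace.laplacian_eq_iteratedFDeriv_complexPlane]
  simp only [iteratedFDeriv_two_apply]
  simp only [Matrix.cons_val_zero, Matrix.cons_val_one]
  rw [hdd, hdd]
  unfold lev
  rw [one_smul]

theorem moll_mean (hM : ∀ K ⊆ M, IsCompact K → IntegrableOn u K)
    (hw : ∀ ψ, TestF M ψ → ∀ e, ∫ x in M, u x * lev ψ x e = 0) (hMo : IsOpen M)
    {M' : Set (Cn n)} (hM' : IsOpen M') {ε ε₀ : ℝ} (h : ∀ x ∈ M', closedBall x ε₀ ⊆ M)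
    (hε : 0 < ε) (h2 : 2 * ε ≤ ε₀) : MeanOn (moll u ε) M' := by
  intro x hx e he
  have key : InnerProductSpace.HarmonicOnNhd (fun ζ : ℂ => moll u ε (x + ζ • e))
      (closedBall 0 |1|) := by
    intro ζ₀ hζ₀
    rw [abs_one, mem_closedBall_zero_iff] at hζ₀
    set p := x + ζ₀ • e with hp
    have hpM : p ∈ M' := he ζ₀ hζ₀
    set W := (((closedBall p ε₀).indicator u)
      ⋆[ContinuousLinearMap.mul ℝ ℝ, volume] mol n ε) with hW
    have hWs : ContDiff ℝ ∞ W := moll_contDiffAt hM (h p hpM) hε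
    have hA : Continuous fun ζ : ℂ => x + ζ • e := by fun_prop
    have hloc : moll u ε =ᶠ[𝓝 p] W := moll_nhds hε h2 u p
    have h1 : (fun ζ : ℂ => moll u ε (x + ζ • e)) =ᶠ[𝓝 ζ₀] fun ζ => W (x + ζ • e) :=
      hA.continuousAt.eventually hloc
    rw [InnerProductSpace.harmonicAt_congr_nhds h1]
    refine ⟨?_, ?_⟩
    · have hsm : ContDiff ℝ ∞ (fun ζ : ℂ => W (x + ζ • e)) :=
        hWs.comp (contDiff_const.add (contDiff_id.smul contDiff_const))
      exact (contDiff_infty.1 hsm 2).contDiffAt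
    · have h3 : ∀ᶠ y in 𝓝 p, lev W y e = 0 := by
        filter_upwards [hloc.eventually_nhds, hM'.mem_nhds hpM] with y hy hyM
        rw [← lev_congr hy]
        exact lev_moll hM hw hMo (h y hyM) hε h2 e
      filter_upwards [hA.continuousAt.eventually h3] with ζ hζ
      rw [laplacian_line hWs]
      exact hζ
  have h3 := key.circleAverage_eq
  rw [h3, zero_smul, add_zero]

theorem moll_cont (hM : ∀ K ⊆ M, IsCompact K → IntegrableOn u K)
    {M' : Set (Cn n)} {ε ε₀ : ℝ} (h : ∀ x ∈ M', closedBall x ε₀ ⊆ M)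
    (hε : 0 < ε) (h2 : 2 * ε ≤ ε₀) : ContinuousOn (moll u ε) M' := by
  intro x hx
  have h1 := (moll_contDiffAt hM (h x hx) hε).continuous.continuousAt (x := x)
  exact (h1.congr (moll_nhds hε h2 u x).symm).continuousWithinAt

end main

/-! ## Rotations -/

theorem rot_mp {c : ℂ} (hc : ‖c‖ = 1) : MeasurePreserving (fun y : Cn n => c • y) := by
  have h1 : MeasurePreserving (fun z : ℂ => c * z) := by
    have h3 := (rotation ⟨c, mem_sphere_zero_iff_norm.2 hc⟩).measurePreserving
    exact h3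
  exact volume_preserving_pi (fun _ : Fin n => h1)

theorem moll_rot (U : Cn n → ℝ) (ε : ℝ) (x : Cn n) {c : ℂ} (hc : ‖c‖ = 1) :
    ∫ y, U (x + c • (-y)) * mol n ε y = moll U ε x := by
  have hc0 : c ≠ 0 := by
    intro h
    rw [h, norm_zero] at hc
    exact zero_ne_one hc
  have h1 := (rot_mp (n := n) hc).integral_comp (measurableEmbedding_const_smul₀ hc0)
    (fun z => U (x - z) * mol n ε z)
  unfold moll
  rw [← h1]
  refine integral_congr_ae (Eventually.of_forall fun y => ?_)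
  simp only []
  rw [mol_rot ε hc, smul_neg, sub_eq_add_neg]

/-- mollification does not change functions with the mean value property -/
theorem moll_self {U : Cn n → ℝ} {M' : Set (Cn n)} (hU : ContinuousOn U M') (hm : MeanOn U M')
    {x : Cn n} {ε : ℝ} (hε : 0 < ε) (hx : closedBall x ε ⊆ M') : moll U ε x = U x := by
  set B : Set (Cn n) := closedBall 0 ε with hB
  have hin : ∀ c : ℂ, ‖c‖ ≤ 1 → ∀ y ∈ B, x + c • (-y) ∈ M' := by
    intro c hc y hy
    apply hx
    rw [mem_closedBall_iff_norm, add_sub_cancel_left, norm_smul, norm_neg]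
    rw [hB, mem_closedBall_zero_iff] at hy
    calc ‖c‖ * ‖y‖ ≤ 1 * ε := mul_le_mul hc hy (norm_nonneg _) zero_le_one
      _ = ε := one_mul _
  have hc1 : ∀ θ : ℝ, ‖circleMap 0 1 θ‖ = 1 := fun θ => by rw [norm_circleMap_zero, abs_one]
  have hz : ∀ y ∉ B, mol n ε y = 0 := by
    intro y hy
    by_contra h
    apply hy
    rw [hB, mem_closedBall_zero_iff]
    exact (norm_lt_of_mol hε h).le
  set F : ℝ → Cn n → ℝ := fun θ y => U (x + circleMap 0 1 θ • (-y)) * mol n ε y with hF
  have h0 : ∀ θ : ℝ, ∫ y in B, F θ y = moll U ε x := by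
    intro θ
    rw [setIntegral_eq_integral_of_forall_compl_eq_zero (fun y hy => by
      simp only [hF]; rw [hz y hy, mul_zero])]
    exact moll_rot U ε x (hc1 θ)
  have hpi : (0 : ℝ) ≤ 2 * Real.pi := by positivity
  have hcont : ContinuousOn (Function.uncurry F) (Icc 0 (2 * Real.pi) ×ˢ B) := by
    have h1 : ContinuousOn (fun p : ℝ × Cn n => U (x + circleMap 0 1 p.1 • (-p.2)))
        (Icc 0 (2 * Real.pi) ×ˢ B) := by
      refine hU.comp ?_ ?_
      · have h2 : Continuous fun p : ℝ × Cn n => x + circleMap 0 1 p.1 • (-p.2) := by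
          have h3 := continuous_circleMap 0 1
          fun_prop
        exact h2.continuousOn
      · rintro ⟨θ, y⟩ ⟨-, hy⟩
        exact hin _ (hc1 θ).le y hy
    exact h1.mul ((mol_cont ε).comp continuous_snd).continuousOn
  have hint : Integrable (Function.uncurry F)
      ((volume.restrict (Ioc 0 (2 * Real.pi))).prod (volume.restrict B)) := by
    rw [Measure.prod_restrict]
    have h1 : IntegrableOn (Function.uncurry F) (Icc 0 (2 * Real.pi) ×ˢ B)
        (volume.prod volume) :=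
      hcont.integrableOn_compact (isCompact_Icc.prod (isCompact_closedBall _ _))
    exact h1.mono_set (prod_mono Ioc_subset_Icc_self le_rfl)
  have hswap := integral_integral_swap hint
  have hl : ∫ θ in Ioc 0 (2 * Real.pi), ∫ y in B, F θ y = 2 * Real.pi * moll U ε x := by
    rw [integral_congr_ae (Eventually.of_forall h0), integral_const]
    simp [hpi]
  have hr : ∫ y in B, ∫ θ in Ioc 0 (2 * Real.pi), F θ y = 2 * Real.pi * U x := by
    have h1 : ∀ y ∈ B, ∫ θ in Ioc 0 (2 * Real.pi), F θ y = 2 * Real.pi * U x * mol n ε y := by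
      intro y hy
      have h2 := hm x (hx (mem_closedBall_self hε.le)) (-y) (fun ζ hζ => hin ζ hζ y hy)
      rw [Real.circleAverage_def, smul_eq_mul] at h2
      have h3 : ∫ θ in Ioc 0 (2 * Real.pi), F θ y =
          (∫ θ in 0..2 * Real.pi, U (x + circleMap 0 1 θ • (-y))) * mol n ε y := by
        rw [intervalIntegral.integral_of_le hpi, ← integral_mul_const]
      have h4 : ∫ θ in 0..2 * Real.pi, U (x + circleMap 0 1 θ • (-y)) = 2 * Real.pi * U x := by
        rw [h2]
        have := Real.pi_pos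
        field_simp
      rw [h3, h4]
    rw [setIntegral_congr_fun measurableSet_closedBall h1, integral_const_mul,
      setIntegral_eq_integral_of_forall_compl_eq_zero hz, mol_int hε, mul_one]
  rw [hl, hr] at hswap
  exact mul_left_cancel₀ (by positivity) hswap

/-! ## Two mollifications commute -/

theorem conv_comm (g h : Cn n → ℝ) :
    (g ⋆[ContinuousLinearMap.mul ℝ ℝ, volume] h) =
      (h ⋆[ContinuousLinearMap.mul ℝ ℝ, volume] g) := by
  funext x
  rw [convolution_mul, convolution_mul_swap]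
  refine integral_congr_ae (Eventually.of_forall fun t => ?_)
  simp only []
  ring

theorem conv_assoc {f : Cn n → ℝ} (hf : LocallyIntegrable f) {ε ε' : ℝ} (hε : 0 < ε)
    (hε' : 0 < ε') (x : Cn n) :
    ((f ⋆[ContinuousLinearMap.mul ℝ ℝ, volume] mol n ε)
        ⋆[ContinuousLinearMap.mul ℝ ℝ, volume] mol n ε') x =
      (f ⋆[ContinuousLinearMap.mul ℝ ℝ, volume]
        (mol n ε ⋆[ContinuousLinearMap.mul ℝ ℝ, volume] mol n ε')) x := by
  refine convolution_assoc (ContinuousLinearMap.mul ℝ ℝ) (ContinuousLinearMap.mul ℝ ℝ)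
    (ContinuousLinearMap.mul ℝ ℝ) (ContinuousLinearMap.mul ℝ ℝ)
    (fun a b c => by simp [mul_assoc]) hf.aestronglyMeasurable
    (mol_cont ε).aestronglyMeasurable (mol_cont ε').aestronglyMeasurable
    (Eventually.of_forall fun y => (mol_cs hε).convolutionExists_right _ hf (mol_cont ε) y)
    (Eventually.of_forall fun y => (mol_cs hε').norm.convolutionExists_right _
      (mol_cont ε).norm.locallyIntegrable (mol_cont ε').norm y) ?_
  refine HasCompactSupport.convolutionExists_right _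
    ((mol_cs hε).norm.convolution _ (mol_cs hε').norm)
    (fun x => let ⟨s, hs, h⟩ := hf x; ⟨s, hs, h.norm⟩) ?_ x
  exact (mol_cs hε').norm.continuous_convolution_right _ (mol_cont ε).norm.locallyIntegrable
    (mol_cont ε').norm

theorem moll_moll {M : Set (Cn n)} {u : Cn n → ℝ}
    (hM : ∀ K ⊆ M, IsCompact K → IntegrableOn u K) {x : Cn n} {ε ε' ε₀ : ℝ} (hε : 0 < ε)
    (hε' : 0 < ε') (h : ε + ε' ≤ ε₀) (hx : closedBall x ε₀ ⊆ M) :
    moll (moll u ε) ε' x = (((closedBall x ε₀).indicator u)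
      ⋆[ContinuousLinearMap.mul ℝ ℝ, volume]
        (mol n ε ⋆[ContinuousLinearMap.mul ℝ ℝ, volume] mol n ε')) x := by
  rw [← conv_assoc (ind_int hM hx).locallyIntegrable hε hε', convolution_mul_swap]
  unfold moll
  refine integral_congr_ae (Eventually.of_forall fun y => ?_)
  simp only []
  by_cases hy : mol n ε' y = 0
  · rw [hy, mul_zero, mul_zero]
  · congr 1
    refine moll_local hε u ?_
    have h1 := norm_lt_of_mol hε' hy
    rw [sub_sub_cancel_left, norm_neg]
    linarith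

theorem stmtMOLW : S_MOLW := by
  intro n M hMo u hM hw ε₀ hε₀ M' hM'M hM' h
  have hA : ∀ ε, 0 < ε → 2 * ε ≤ ε₀ → ContinuousOn (moll u ε) M' ∧ MeanOn (moll u ε) M' :=
    fun ε hε h2 => ⟨moll_cont hM h hε h2, moll_mean hM hw hMo hM' h hε h2⟩
  refine ⟨hA, fun ε ε' hε hε' h2 h2' x hx hxM => ?_⟩
  have e1 : moll (moll u ε) ε' x = moll u ε x :=
    moll_self (hA ε hε h2).1 (hA ε hε h2).2 hε' ((closedBall_subset_closedBall (by linarith)).trans hxM)
  have e2 : moll (moll u ε') ε x = moll u ε' x :=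
    moll_self (hA ε' hε' h2').1 (hA ε' hε' h2').2 hε
      ((closedBall_subset_closedBall (by linarith)).trans hxM)
  rw [← e1, ← e2, moll_moll hM hε hε' (by linarith) (h x hx),
    moll_moll hM hε' hε (by linarith) (h x hx), conv_comm (mol n ε) (mol n ε')]

end Pool.Agent.Helper67.Lin
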