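import Pool.Agent.Helper67.Lin.MOLW

/-!
# Packet MOLC: mollifications converge at points of continuity
-/

open Complex Metric Set Filter Topology MeasureTheory
open scoped ContDiff ComplexConjugate ComplexOrder Convolution

namespace Pool.Agent.Helper67.Lin

open Pool.Agent.Helper95.Lin

theorem mol_nonneg {n : ℕ} {ε : ℝ} (hε : 0 < ε) (y : Cn n) : 0 ≤ mol n ε y :=
  mul_nonneg (inv_nonneg.2 (bump_int hε).le) (bump_nonneg ε y)

theorem stmtMOLC : S_MOLC := by
  intro n u x hu ⟨r, hr, hint⟩
  rw [Metric.tendsto_nhds]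
  intro η hη
  obtain ⟨δ, hδ, hδ'⟩ := Metric.continuousAt_iff.1 hu (η / 2) (half_pos hη)
  have hpos : ∀ᶠ ε in 𝓝[>] (0 : ℝ), 0 < ε := eventually_mem_nhdsWithin
  have hlt : ∀ᶠ ε in 𝓝[>] (0 : ℝ), ε < min δ r :=
    eventually_nhdsWithin_of_eventually_nhds (eventually_lt_nhds (lt_min hδ hr))
  filter_upwards [hpos, hlt] with ε hε hε'
  have e1 : ε < δ := hε'.trans_le (min_le_left _ _)
  have e2 : ε < r := hε'.trans_le (min_le_right _ _)
  set f : Cn n → ℝ := (closedBall x r).indicator u with hf
  have hfi : Integrable f := by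
    rw [hf, integrable_indicator_iff measurableSet_closedBall]
    exact hint
  have h1 : moll u ε x = ∫ y, f (x - y) * mol n ε y := by
    rw [moll_local hε u (r := r) (x₀ := x) (by rw [sub_self, norm_zero]; linarith),
      convolution_mul_swap]
  have h2 : Integrable (fun y => f (x - y) * mol n ε y) :=
    ((mol_cs hε).convolutionExists_right (ContinuousLinearMap.mul ℝ ℝ) hfi.locallyIntegrable
      (mol_cont ε) x).integrable_swap
  have h3 : Integrable (fun y => u x * mol n ε y) :=
    ((mol_cont ε).integrable_of_hasCompactSupport (mol_cs hε)).const_mul _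
  have h4 : moll u ε x - u x = ∫ y, (f (x - y) * mol n ε y - u x * mol n ε y) := by
    rw [integral_sub h2 h3, integral_const_mul, mol_int hε, mul_one, h1]
  rw [dist_eq_norm, h4]
  have h5 : ‖∫ y, (f (x - y) * mol n ε y - u x * mol n ε y)‖ ≤ ∫ y, η / 2 * mol n ε y := by
    refine norm_integral_le_of_norm_le
      (((mol_cont ε).integrable_of_hasCompactSupport (mol_cs hε)).const_mul _)
      (Eventually.of_forall fun y => ?_)
    by_cases hy : mol n ε y = 0
    · rw [hy]; simp
    · have hy' := norm_lt_of_mol hε hy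
      have h6 : f (x - y) = u (x - y) := by
        rw [hf, indicator_of_mem]
        rw [mem_closedBall_iff_norm, sub_sub_cancel_left, norm_neg]
        linarith
      have h7 : dist (u (x - y)) (u x) < η / 2 := by
        apply hδ'
        rw [dist_eq_norm, sub_sub_cancel_left, norm_neg]
        linarith
      rw [h6, ← sub_mul, norm_mul, Real.norm_of_nonneg (mol_nonneg hε y), ← dist_eq_norm]
      exact mul_le_mul_of_nonneg_right h7.le (mol_nonneg hε y)
  rw [integral_const_mul, mol_int hε, mul_one] at h5
  linarith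

end Pool.Agent.Helper67.Lin
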